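import Pool.Agent.RCM.Stmts

/-!
# Squad RCM, row CIR (helper10): closures in an independent set
-/

set_option autoImplicit false

namespace Pool.Agent.RCM.H10

open Set

universe u

theorem cir : CirStmt.{u} := by
  intro E M I D x hI hx hD
  by_cases hne : (I ∩ D).Nonempty
  · have h1 := hI.closure_sInter_eq_biInter_closure_of_forall_subset
      (Js := (fun y => I \ {y}) '' (I ∩ D)) (hne.image _)
      (by rintro J ⟨y, -, rfl⟩; exact sdiff_subset)
    have h2 : ⋂₀ ((fun y => I \ {y}) '' (I ∩ D)) = I \ D := by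
      ext z
      simp only [mem_sInter, mem_image, forall_exists_index, and_imp, mem_sdiff]
      constructor
      · intro h
        obtain ⟨y0, hy0⟩ := hne
        have hz : z ∈ I := (h _ y0 hy0 rfl).1
        refine ⟨hz, fun hzD => ?_⟩
        exact (h _ z ⟨hz, hzD⟩ rfl).2 rfl
      · rintro ⟨hz, hzD⟩ J y hy rfl
        exact ⟨hz, fun hzy => hzD (by rw [mem_singleton_iff.mp hzy]; exact hy.2)⟩
    rw [h2] at h1
    rw [h1]
    simp only [mem_iInter]
    rintro J ⟨y, hy, rfl⟩
    exact hD y hy
  · have h1 : I \ D = I := by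
      rw [not_nonempty_iff_eq_empty] at hne
      exact sdiff_eq_left.mpr (disjoint_iff_inter_eq_empty.mpr hne)
    rw [h1]
    exact hx

end Pool.Agent.RCM.H10
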